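import Pool.Agent.GRA.StmtsC

/-!
Row CKA of the squad GRA (MP_3b0ba7_pr): the choice of the weight `κ`.
-/

namespace Pool.Agent.GRA.H81

theorem cka : CKAStmt := by
  intro n r c Y Z hn hr hc hcr hY hZ
  have h5 : 0 < 2 * n - 5 := by linarith
  have hr' : 2 * n - 4 ≤ r * (2 * n - 5) := (div_le_iff₀ h5).1 hr
  have hr1 : 1 < r := by
    by_contra h
    push Not at h
    have := mul_le_mul_of_nonneg_right h h5.le
    linarith
  have hr0 : 0 < r := by linarith
  by_cases hA : c ≤ r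
  · refine ⟨1 / r, by positivity, (div_le_one hr0).2 hr1.le, Or.inl ⟨?_, ?_⟩⟩
    · rw [div_mul_eq_mul_div, one_mul]
      exact (div_le_one hr0).2 hA
    · rw [div_mul_eq_mul_div, one_mul]
      exact div_le_div_of_nonneg_right (by linarith) hr0.le
  push Not at hA
  have hc0 : 0 < c := by linarith
  obtain ⟨b, hbdef⟩ : ∃ b : ℝ, b = 1 / c := ⟨_, rfl⟩
  obtain ⟨R, hRdef⟩ : ∃ R : ℝ, R = 1 / r := ⟨_, rfl⟩
  have hb0 : 0 < b := by rw [hbdef]; positivity
  have hR0 : 0 < R := by rw [hRdef]; positivity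
  have hbc : b * c = 1 := by rw [hbdef]; field_simp
  have hRr : R * r = 1 := by rw [hRdef]; field_simp
  have hb1 : b ≤ 1 := by
    rw [hbdef]
    exact (div_le_one hc0).2 (by linarith)
  have hmr : (n - 1) / r = (n - 1) * R := by rw [hRdef]; ring
  have hZc : Z / c = b * Z := by rw [hbdef]; ring
  by_cases hB : (n - 1) * (R - b) ≤ b * (Y + Z)
  · refine ⟨b, hb0, hb1, Or.inl ⟨hbc.le, ?_⟩⟩
    rw [hmr]
    linarith
  push Not at hB
  -- the third case
  obtain ⟨q, hq⟩ : ∃ q : ℝ, q = 2 * n - 4 := ⟨_, rfl⟩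
  obtain ⟨m, hm⟩ : ∃ m : ℝ, m = n - 1 := ⟨_, rfl⟩
  have hqm : 2 * m = q + 2 := by rw [hq, hm]; ring
  have hq4 : 4 ≤ q := by rw [hq]; linarith
  have hm3 : 3 ≤ m := by rw [hm]; linarith
  obtain ⟨T, hT⟩ : ∃ T : ℝ, T = Y + Z := ⟨_, rfl⟩
  have hT0 : 0 ≤ T := by rw [hT]; linarith
  obtain ⟨D, hD⟩ : ∃ D : ℝ, D = m + Y + 2 * Z := ⟨_, rfl⟩
  have hD0 : 0 < D := by rw [hD]; linarith
  -- bounds for `R` and `b`
  have hRq : R * q ≤ q - 1 := by
    have h1 : q ≤ r * (q - 1) := by rw [hq]; linarith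
    have h2 := mul_le_mul_of_nonneg_left h1 hR0.le
    calc R * q ≤ R * (r * (q - 1)) := h2
      _ = (R * r) * (q - 1) := by ring
      _ = q - 1 := by rw [hRr, one_mul]
  have hcq : c * q ≤ r * (q + 1) := by
    have h1 : (n - 3) * (c * q) ≤ (n - 3) * (r * (q + 1)) := by
      have h2 : (n - 3) * (c * q) ≤ (n - 1 - r) * q := by
        calc (n - 3) * (c * q) = ((n - 3) * c) * q := by ring
          _ ≤ (n - 1 - r) * q := mul_le_mul_of_nonneg_right hcr (by linarith)
      have h3 : (n - 1 - r) * q ≤ (n - 3) * (r * (q + 1)) := by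
        have h4 : 0 ≤ (n - 1) * (r * (2 * n - 5) - (2 * n - 4)) :=
          mul_nonneg (by linarith) (by linarith)
        have h5' : (n - 3) * (r * (q + 1)) - (n - 1 - r) * q
            = (n - 1) * (r * (2 * n - 5) - (2 * n - 4)) := by
          rw [hq]; ring
        linarith
      linarith
    exact le_of_mul_le_mul_left h1 (by linarith)
  have hbq : R * q ≤ b * (q + 1) := by
    have h1 := mul_le_mul_of_nonneg_left hcq (mul_pos hb0 hR0).le
    calc R * q = (b * c) * (R * q) := by rw [hbc, one_mul]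
      _ = b * R * (c * q) := by ring
      _ ≤ b * R * (r * (q + 1)) := h1
      _ = (R * r) * (b * (q + 1)) := by ring
      _ = b * (q + 1) := by rw [hRr, one_mul]
  have hB' : 0 < m * R - b * (m + T) := by
    rw [hm, hT]; linarith
  have hRq2 : R * (q + 2) ≤ q + 1 := by
    have h1 : (R * (q + 2)) * q ≤ (q + 1) * q := by
      calc (R * (q + 2)) * q = (R * q) * (q + 2) := by ring
        _ ≤ (q - 1) * (q + 2) := mul_le_mul_of_nonneg_right hRq (by linarith)
        _ ≤ (q + 1) * q := by nlinarith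
    exact le_of_mul_le_mul_right h1 (by linarith)
  -- the parameter `t`
  obtain ⟨τ, hτ⟩ : ∃ τ : ℝ, τ = m / q := ⟨_, rfl⟩
  have hq0 : 0 < q := by linarith
  have hτ0 : 0 < τ := by rw [hτ]; exact div_pos (by linarith) hq0
  have hτq : τ * q = m := by rw [hτ]; field_simp
  obtain ⟨t, ht⟩ : ∃ t : ℝ, t = T / τ := ⟨_, rfl⟩
  have htT : τ * t = T := by rw [ht]; field_simp
  have ht0 : 0 ≤ t := by rw [ht]; exact div_nonneg hT0 hτ0.le
  have hS1 : (m * R - b * (m + T)) * (q + 1) ≤ R * m * (1 - t) := by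
    have h1 : (R * q) * (m + T) ≤ (b * (q + 1)) * (m + T) :=
      mul_le_mul_of_nonneg_right hbq (by linarith)
    have h2 : R * m * (1 - t) = R * (m - q * T) := by
      rw [← htT, ← hτq]; ring
    rw [h2]
    nlinarith [h1]
  have ht1 : t < 1 := by
    by_contra h
    push Not at h
    have h1 : R * m * (1 - t) ≤ 0 :=
      mul_nonpos_of_nonneg_of_nonpos (mul_pos hR0 (by linarith)).le (by linarith)
    have h2 : 0 < (m * R - b * (m + T)) * (q + 1) := mul_pos hB' (by linarith)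
    linarith
  have hS2 : m * R - b * (m + T) ≤ (1 / 2) * (1 - t) := by
    have h1 : R * m * (1 - t) ≤ ((q + 1) / 2) * (1 - t) := by
      refine mul_le_mul_of_nonneg_right ?_ (by linarith)
      have : R * m = (R * (q + 2)) / 2 := by rw [← hqm]; ring
      rw [this]
      linarith
    have h2 : (m * R - b * (m + T)) * (q + 1) ≤ ((1 / 2) * (1 - t)) * (q + 1) := by
      have : ((1 / 2) * (1 - t)) * (q + 1) = ((q + 1) / 2) * (1 - t) := by ring
      rw [this]
      linarith
    exact le_of_mul_le_mul_right h2 (by linarith)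
  have hS4 : τ ≤ m * (1 - R) := by
    have h1 : 1 ≤ q * (1 - R) := by nlinarith [hRq]
    have h2 := mul_le_mul_of_nonneg_left h1 hτ0.le
    calc τ = τ * 1 := (mul_one _).symm
      _ ≤ τ * (q * (1 - R)) := h2
      _ = (τ * q) * (1 - R) := by ring
      _ = m * (1 - R) := by rw [hτq]
  -- the choice of `κ`
  have hκex : ∃ κ : ℝ, κ * D = m * R + b * Z := ⟨(m * R + b * Z) / D, by field_simp⟩
  obtain ⟨κ, hκ⟩ := hκex
  have hnum : 0 < m * R + b * Z := by
    have h1 : 0 < m * R := mul_pos (by linarith) hR0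
    have h2 : 0 ≤ b * Z := mul_nonneg hb0.le hZ
    linarith
  have hκ0 : 0 < κ := by
    by_contra h
    push Not at h
    have := mul_nonpos_of_nonpos_of_nonneg h hD0.le
    linarith
  have hkey1 : (κ - b) * D = m * R - b * (m + T) := by
    rw [sub_mul, hκ, hD, hT]; ring
  have hkey2 : (1 - κ) * D = m * (1 - R) + Y + (2 - b) * Z := by
    rw [sub_mul, hκ, hD]; ring
  have hkey2' : m * (1 - R) + T ≤ (1 - κ) * D := by
    rw [hkey2, hT]
    have : 0 ≤ (1 - b) * Z := mul_nonneg (by linarith) hZ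
    linarith
  have hκb : b < κ := by
    by_contra h
    push Not at h
    have h1 : (κ - b) * D ≤ 0 := mul_nonpos_of_nonpos_of_nonneg (by linarith) hD0.le
    rw [hkey1] at h1
    linarith
  have hκ1 : κ ≤ 1 := by
    by_contra h
    push Not at h
    have h1 : (1 - κ) * D ≤ 0 := mul_nonpos_of_nonpos_of_nonneg (by linarith) hD0.le
    linarith
  refine ⟨κ, hκ0, hκ1, Or.inr ⟨?_, ?_, ?_⟩⟩
  · have := mul_lt_mul_of_pos_right hκb hc0
    linarith
  · rw [hmr, hZc, ← hm, ← hD, hκ]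
    linarith
  · intro X a ha0 haZ hX
    rw [← hbdef]
    obtain ⟨u, hu⟩ : ∃ u : ℝ, u = ‖X‖ := ⟨_, rfl⟩
    have hu0 : 0 ≤ u := by rw [hu]; exact norm_nonneg _
    have hux : (u - 1) ^ 2 ≤ ‖X - 1‖ ^ 2 := by
      have h1 := abs_norm_sub_norm_le X 1
      rw [norm_one, ← hu] at h1
      rw [← sq_abs (u - 1)]
      exact pow_le_pow_left₀ (abs_nonneg _) h1 2
    have hX' : (u - 1) ^ 2 * m ≤ q * (T - a) := by
      have h1 : (u - 1) ^ 2 ≤ (q / m) * (T - a) := by
        rw [hq, hm, hT]; exact le_trans hux hX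
      have hm0 : 0 < m := by linarith
      have h2 := mul_le_mul_of_nonneg_right h1 hm0.le
      calc (u - 1) ^ 2 * m ≤ (q / m) * (T - a) * m := h2
        _ = q * (T - a) := by field_simp
    have ha' : a ≤ τ * (t - (1 - u) ^ 2) := by
      have h1 : q * a ≤ q * (τ * (t - (1 - u) ^ 2)) := by
        have h2 : q * (τ * (t - (1 - u) ^ 2)) = q * T - (1 - u) ^ 2 * m := by
          rw [← htT, ← hτq]; ring
        have h3 : (1 - u) ^ 2 = (u - 1) ^ 2 := by ring
        rw [h2, h3]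
        linarith
      exact le_of_mul_le_mul_left h1 hq0
    rw [← hu]
    have hfin : D * ((κ - b) * a) ≤ D * ((1 - κ) * u ^ 2) := by
      have h1 : D * ((κ - b) * a) = (m * R - b * (m + T)) * a := by
        rw [← hkey1]; ring
      have h2 : (m * R - b * (m + T)) * a ≤ (1 / 2) * (1 - t) * a :=
        mul_le_mul_of_nonneg_right hS2 ha0
      have h3 : (1 / 2) * (1 - t) * a ≤ (1 / 2) * (1 - t) * (τ * (t - (1 - u) ^ 2)) :=
        mul_le_mul_of_nonneg_left ha' (by linarith)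
      have h4 : (1 / 2) * (1 - t) * (τ * (t - (1 - u) ^ 2)) ≤ τ * (1 + t) * u ^ 2 := by
        have h5 : 0 ≤ τ * ((1 - t - u) ^ 2 + (2 + t) * u ^ 2) := by positivity
        have h6 : τ * (1 + t) * u ^ 2 - (1 / 2) * (1 - t) * (τ * (t - (1 - u) ^ 2))
            = (1 / 2) * (τ * ((1 - t - u) ^ 2 + (2 + t) * u ^ 2)) := by ring
        linarith
      have h7 : τ * (1 + t) * u ^ 2 ≤ ((1 - κ) * D) * u ^ 2 := by
        refine mul_le_mul_of_nonneg_right ?_ (sq_nonneg u)
        have : τ * (1 + t) = τ + T := by rw [← htT]; ring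
        rw [this]
        linarith
      calc D * ((κ - b) * a) = (m * R - b * (m + T)) * a := h1
        _ ≤ ((1 - κ) * D) * u ^ 2 := by linarith
        _ = D * ((1 - κ) * u ^ 2) := by ring
    exact le_of_mul_le_mul_left hfin hD0

end Pool.Agent.GRA.H81
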